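import Pool.Agent.N859.P4.Defs

/-! Families of cuspidal representations: definitions. -/

set_option autoImplicit false

namespace Pool.Agent.N859.LP

open NumberField IsDedekindDomain Filter Topology
open Pool.Agent.N859.G4 (PL Nm)
open Pool.Agent.N859.P4 (logL)

variable {K : Type*} [Field K] [NumberField K]

/-- The `L`-function with `log L^S(s) = ∑_{v ∉ S} ∑_{k ≥ 1} t_v(k) / k · (N v)^{-ks}` converges absolutely for
`Re s > 1`, and `(s - 1)^m L^S(s)` is analytic and not zero at `s = 1`. -/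
structure Pole {S : Finset (HeightOneSpectrum (𝓞 K))} (t : PL S → ℕ → ℂ) (m : ℤ) : Prop where
  /-- absolute convergence for `Re s > 1` -/
  summable : ∀ σ : ℝ, 1 < σ → Summable fun x : PL S × ℕ =>
    ‖t x.1 (x.2 + 1)‖ / ((x.2 : ℝ) + 1) * (((Nm x.1.1 : ℕ) : ℝ) ^ (-σ)) ^ (x.2 + 1)
  /-- the order of the pole at `s = 1` is `m` -/
  pole : ∃ A : ℂ → ℂ, AnalyticAt ℂ A 1 ∧ A 1 ≠ 0 ∧
    ∀ s : ℂ, 1 < s.re → A s = (s - 1) ^ m * Complex.exp (logL t s)

/-- `T i v k` is the trace of the `k`-th power of the Satake parameter at `v` of a unitary cuspidal automorphic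
representation `Π_i` of a group `GL_{n_i}` over `K`; the `Π_i` are not trivial and pairwise not isomorphic. Then
`L^S(s, Π_i)` is analytic and not zero at `s = 1`, and `L^S(s, Π_i × Π~_j)` has a pole at `s = 1`, a simple one,
only for `i = j`. -/
structure Cuspidals {S : Finset (HeightOneSpectrum (𝓞 K))} {I : Type*} [DecidableEq I]
    (T : I → PL S → ℕ → ℂ) : Prop where
  /-- the standard `L`-functions -/
  std : ∀ i, Pole (T i) 0
  /-- the Rankin-Selberg `L`-functions -/
  rs : ∀ i j, Pole (fun v k => T i v k * (starRingEnd ℂ) (T j v k)) (if i = j then 1 else 0)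

end Pool.Agent.N859.LP

/-! ### Families of representations of `GL(2)` -/

namespace Pool.Agent.N859.LP

open NumberField IsDedekindDomain Filter Topology
open Pool.Agent.N859.G4 (PL Nm)

variable {K : Type*} [Field K] [NumberField K]

/-- the trace of the `k`-th power of `A² g = Sym² g ⊗ (det g)⁻¹`, `g = diag(a 0, a 1)` -/
noncomputable def A2 (a : Fin 2 → ℂ) (k : ℕ) : ℂ := (a 0 / a 1) ^ k + 1 + (a 1 / a 0) ^ k

/-- the trace of the `k`-th power of `A⁴ g = Sym⁴ g ⊗ (det g)⁻²`, `g = diag(a 0, a 1)` -/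
noncomputable def A4 (a : Fin 2 → ℂ) (k : ℕ) : ℂ :=
  (a 0 / a 1) ^ (2 * k) + (a 0 / a 1) ^ k + 1 + (a 1 / a 0) ^ k + (a 1 / a 0) ^ (2 * k)

/-- `π_v` is tempered -/
def Tempered (a : Fin 2 → ℂ) : Prop := ∀ i, ‖a i‖ = 1

/-- Properties of the Satake parameters `α i v = (α i v 0, α i v 1)`, `v ∉ S`, of unitary cuspidal automorphic
representations `π_i` of `GL_2` over `K`, such that the lifts `A² π_i` to `GL_3` and `A⁴ π_i` to `GL_5` are cuspidal
and pairwise not isomorphic. -/
structure FamilyGL2 {S : Finset (HeightOneSpectrum (𝓞 K))} {ι : Type*} [DecidableEq ι]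
    (α : ι → PL S → Fin 2 → ℂ) : Prop where
  /-- the Satake parameters are not zero -/
  ne_zero : ∀ i v j, α i v j ≠ 0
  /-- `π_{i,v}` is unitary: the parameters are permuted by `z ↦ 1 / conj z` -/
  unitary : ∀ i v, ∃ τ : Equiv.Perm (Fin 2), ∀ j, α i v (τ j) = ((starRingEnd ℂ) (α i v j))⁻¹
  /-- the `L`-functions of the lifts -/
  lifts : Cuspidals (I := ι ⊕ ι) (fun j v k => Sum.elim (fun i => A2 (α i v) k) (fun i => A4 (α i v) k) j)

end Pool.Agent.N859.LP
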