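import Pool.Agent.N859.LP.Defs
import Pool.Agent.N859.P4.Main

/-! Densities from nonnegative combinations of logarithms of `L`-functions. -/

set_option autoImplicit false

namespace Pool.Agent.N859.LP

open NumberField IsDedekindDomain Filter Topology
open Pool.Agent.N859.G4
open Pool.Agent.N859.P4 (logL zeta_upper)
open Pool.Agent.H921R2.TatePole (nm Lam prime_sum_bdd nm_summable Lam_tendsto Bdd)

variable {K : Type*} [Field K] [NumberField K] {S : Finset (HeightOneSpectrum (𝓞 K))}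

/-- terms of the real part of the logarithm -/
noncomputable def E (t : PL S → ℕ → ℂ) (x : ℝ) (y : PL S × ℕ) : ℝ :=
  (t y.1 (y.2 + 1)).re / ((y.2 : ℝ) + 1) * (wt y.1 x) ^ (y.2 + 1)

/-- terms of the logarithm of zeta -/
noncomputable def Q (x : ℝ) (y : PL S × ℕ) : ℝ := 1 / ((y.2 : ℝ) + 1) * (wt y.1 x) ^ (y.2 + 1)

variable {t : PL S → ℕ → ℂ} {m : ℤ}

lemma Pole.summableE (h : Pole t m) {x : ℝ} (hx : 1 < x) : Summable (E t x) := by
  refine Summable.of_norm_bounded (h.summable x hx) fun y => ?_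
  have h0 := wt_nonneg y.1 x
  unfold E
  rw [Real.norm_eq_abs, abs_mul, abs_div, abs_of_nonneg (by positivity : (0 : ℝ) ≤ (y.2 : ℝ) + 1),
    abs_of_nonneg (by positivity : (0 : ℝ) ≤ wt y.1 x ^ (y.2 + 1))]
  refine mul_le_mul_of_nonneg_right ?_ (by positivity)
  exact div_le_div_of_nonneg_right (Complex.abs_re_le_norm _) (by positivity)

lemma Pole.asymp (h : Pole t m) : ∃ C : ℝ, ∀ᶠ x : ℝ in 𝓝[>] 1, |∑' y, E t x y - m * Lam x| ≤ C := by
  obtain ⟨A, hA, hA1, hAs⟩ := h.pole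
  have hc : Tendsto (fun x : ℝ => Real.log ‖A (x : ℂ)‖) (𝓝[>] 1) (𝓝 (Real.log ‖A 1‖)) := by
    have h1 : ContinuousAt (fun x : ℝ => ‖A (x : ℂ)‖) 1 := by
      refine ContinuousAt.norm ?_
      exact ContinuousAt.comp (f := fun x : ℝ => (x : ℂ)) (x := 1)
        (by simpa using hA.continuousAt) Complex.continuous_ofReal.continuousAt
    have h2 : Tendsto (fun x : ℝ => ‖A (x : ℂ)‖) (𝓝[>] 1) (𝓝 ‖A 1‖) := by
      have := h1.tendsto
      simp only [Complex.ofReal_one] at this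
      exact this.mono_left nhdsWithin_le_nhds
    exact h2.log (norm_ne_zero_iff.2 hA1)
  have hB : ∀ᶠ x : ℝ in 𝓝[>] 1, |Real.log ‖A (x : ℂ)‖| < |Real.log ‖A 1‖| + 1 :=
    hc.abs.eventually (gt_mem_nhds (lt_add_one _))
  refine ⟨|Real.log ‖A 1‖| + 1, ?_⟩
  filter_upwards [hB, self_mem_nhdsWithin] with x hx hx1
  have hx1 : (1 : ℝ) < x := hx1
  have hx0 : 0 < x - 1 := by linarith
  have e1 := hAs (x : ℂ) (by simpa using hx1)
  have e0 : ‖((x : ℂ) - 1) ^ m‖ = (x - 1) ^ m := by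
    have : ((x : ℂ) - 1) = ((x - 1 : ℝ) : ℂ) := by push_cast; rfl
    rw [norm_zpow, this, Complex.norm_real, Real.norm_of_nonneg hx0.le]
  have e2 : Real.log ‖A (x : ℂ)‖ = m * Real.log (x - 1) + (logL t (x : ℂ)).re := by
    rw [e1, norm_mul, e0, Complex.norm_exp, Real.log_mul (by positivity) (Real.exp_pos _).ne',
      Real.log_exp, Real.log_zpow]
  have e3 : (logL t (x : ℂ)).re = ∑' y, E t x y := by
    have hsC : Summable fun y : PL S × ℕ => t y.1 (y.2 + 1) / ((y.2 : ℂ) + 1) *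
        (((Nm y.1.1 : ℕ) : ℂ) ^ (-(x : ℂ))) ^ (y.2 + 1) := by
      refine Summable.of_norm ((h.summable x hx1).congr fun y => ?_)
      rw [norm_mul, norm_div, norm_pow]
      have a1 : ‖((y.2 : ℂ) + 1)‖ = (y.2 : ℝ) + 1 := by
        have : ((y.2 : ℂ) + 1) = (((y.2 : ℝ) + 1 : ℝ) : ℂ) := by push_cast; rfl
        rw [this, Complex.norm_real, Real.norm_of_nonneg (by positivity)]
      have a2 : ‖((Nm y.1.1 : ℕ) : ℂ) ^ (-(x : ℂ))‖ = ((Nm y.1.1 : ℕ) : ℝ) ^ (-x) := by
        have : (((Nm y.1.1 : ℕ) : ℂ) ^ (-(x : ℂ))) = ((((Nm y.1.1 : ℕ) : ℝ) ^ (-x) : ℝ) : ℂ) := by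
          rw [Complex.ofReal_cpow (by positivity)]; push_cast; rfl
        rw [this, Complex.norm_real, Real.norm_of_nonneg (by positivity)]
      rw [a1, a2]
    unfold logL
    rw [Complex.re_tsum hsC]
    refine tsum_congr fun y => ?_
    have a2 : (((Nm y.1.1 : ℕ) : ℂ) ^ (-(x : ℂ))) ^ (y.2 + 1) = (((wt y.1 x) ^ (y.2 + 1) : ℝ) : ℂ) := by
      unfold wt
      rw [Complex.ofReal_pow, Complex.ofReal_cpow (by positivity)]; push_cast; rfl
    have a3 : t y.1 (y.2 + 1) / ((y.2 : ℂ) + 1) = t y.1 (y.2 + 1) / (((y.2 : ℝ) + 1 : ℝ) : ℂ) := by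
      push_cast; rfl
    rw [a2, a3, Complex.re_mul_ofReal, Complex.div_ofReal_re]
    rfl
  have e4 : Lam x = -Real.log (x - 1) := by
    unfold Lam; rw [one_div, Real.log_inv]
  have e5 : ∑' y, E t x y - m * Lam x = Real.log ‖A (x : ℂ)‖ := by
    rw [e2, e3, e4]; ring
  rw [e5]
  exact hx.le

lemma summableQ {x : ℝ} (hx : 1 < x) : Summable (Q (S := S) x) := (zeta_upper (S := S)).1 x hx

lemma Z_asymp : ∃ C : ℝ, ∀ᶠ x : ℝ in 𝓝[>] 1, |Z S x - Lam x| ≤ C := by
  obtain ⟨C1, h1⟩ := Z_lower (S := S)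
  obtain ⟨C2, h2⟩ := prime_sum_bdd (K := K)
  refine ⟨max C1 C2, ?_⟩
  filter_upwards [h1, h2, self_mem_nhdsWithin] with x h1 h2 hx1
  have hx1 : (1 : ℝ) < x := hx1
  have h3 : Z S x ≤ ∑' v : HeightOneSpectrum (𝓞 K), ((nm v : ℕ) : ℝ) ^ (-x) :=
    tsum_comp_le_tsum_of_inj (nm_summable (K := K) hx1) (fun v => by positivity)
      (i := fun v : PL S => v.1) Subtype.val_injective
  rw [abs_le]
  have h4 := (abs_le.1 h2).2
  constructor
  · have := le_max_left C1 C2
    linarith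
  · have := le_max_right C1 C2
    linarith

lemma Q_asymp : ∃ C : ℝ, ∀ᶠ x : ℝ in 𝓝[>] 1, |∑' y, Q (S := S) x y - Lam x| ≤ C := by
  obtain ⟨C1, h1⟩ := Z_lower (S := S)
  obtain ⟨C2, h2⟩ := (zeta_upper (S := S)).2
  refine ⟨max C1 C2, ?_⟩
  filter_upwards [h1, h2, self_mem_nhdsWithin] with x h1 h2 hx1
  have hx1 : (1 : ℝ) < x := hx1
  have h3 : Z S x ≤ ∑' y, Q (S := S) x y := by
    have := tsum_comp_le_tsum_of_inj (summableQ (S := S) hx1) (fun y => by
      have := wt_nonneg y.1 x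
      unfold Q
      positivity) (inj_zero (S := S))
    refine le_trans (le_of_eq ?_) this
    refine tsum_congr fun v => ?_
    simp [Q]
  rw [abs_le]
  have h4 : ∑' y, Q (S := S) x y ≤ Lam x + C2 := h2
  constructor
  · have := le_max_left C1 C2
    linarith
  · have := le_max_right C1 C2
    linarith

/-- **Linear programming bound.** -/
theorem share_lp {J : Type*} [Fintype J] {t : J → PL S → ℕ → ℂ} {m : J → ℤ} (hp : ∀ j, Pole (t j) (m j))
    (c : J → ℝ) (c0 : ℝ) (hg : ∀ v k, 1 ≤ k → 0 ≤ c0 + ∑ j, c j * (t j v k).re)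
    {P : PL S → Prop} (hP : ∀ v, P v → 1 ≤ c0 + ∑ j, c j * (t j v 1).re) {ε : ℝ} (hε : 0 < ε) :
    ∀ᶠ x : ℝ in 𝓝[>] 1, share P x ≤ (c0 + ∑ j, c j * m j) + ε := by
  classical
  choose C hC using fun j => (hp j).asymp
  obtain ⟨C1, hC1⟩ := Q_asymp (S := S)
  obtain ⟨C2, hC2⟩ := Z_asymp (S := S)
  set V : ℝ := c0 + ∑ j, c j * m j with hV
  have hall : ∀ᶠ x : ℝ in 𝓝[>] 1, ∀ j, |∑' y, E (t j) x y - m j * Lam x| ≤ C j :=
    eventually_all.2 hC
  filter_upwards [hall, hC1, hC2, Z_pos (S := S), (Z_tendsto (S := S)).eventually_ge_atTop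
    ((|V| * C2 + (|c0| * C1 + ∑ j, |c j| * C j)) / ε), self_mem_nhdsWithin] with x h1 h2 h3 hZ h4 hx1
  have hx1 : (1 : ℝ) < x := hx1
  rw [share_eq, div_le_iff₀ hZ]
  have h5 : |V| * C2 + (|c0| * C1 + ∑ j, |c j| * C j) ≤ ε * Z S x := by
    rw [div_le_iff₀ hε] at h4
    linarith
  -- the total sum
  have sE : ∀ j, Summable (E (t j) x) := fun j => (hp j).summableE hx1
  have sQ := summableQ (S := S) hx1
  set H : PL S × ℕ → ℝ := fun y => c0 * Q x y + ∑ j, c j * E (t j) x y with hH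
  have sH : Summable H := (sQ.mul_left c0).add (summable_sum fun j _ => (sE j).mul_left (c j))
  have H0 : ∀ y, 0 ≤ H y := by
    intro y
    have h0 := wt_nonneg y.1 x
    have : H y = (c0 + ∑ j, c j * (t j y.1 (y.2 + 1)).re) * (1 / ((y.2 : ℝ) + 1) * (wt y.1 x) ^ (y.2 + 1)) := by
      simp only [hH, Q, E]
      rw [add_mul, Finset.sum_mul]
      congr 1
      refine Finset.sum_congr rfl fun j _ => ?_
      ring
    rw [this]
    exact mul_nonneg (hg y.1 (y.2 + 1) (by omega)) (by positivity)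
  have Hone : ∀ v : PL S, H (v, 0) = (c0 + ∑ j, c j * (t j v 1).re) * wt v x := by
    intro v
    simp only [hH, Q, E]
    rw [add_mul, Finset.sum_mul]
    congr 1
    · norm_num
    · refine Finset.sum_congr rfl fun j _ => ?_
      norm_num
      ring
  have e1 : ∑' v : PL S, (if P v then wt v x else 0) ≤ ∑' y, H y := by
    have a1 := tsum_comp_le_tsum_of_inj sH H0 (inj_zero (S := S))
    refine le_trans ?_ a1
    refine (summable_if hx1).tsum_le_tsum (fun v => ?_) (sH.comp_injective (inj_zero (S := S)))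
    change _ ≤ H (v, 0)
    have hw := wt_nonneg v x
    split_ifs with hv
    · rw [Hone]
      have := mul_le_mul_of_nonneg_right (hP v hv) hw
      linarith
    · exact H0 _
  have e2 : ∑' y, H y = c0 * ∑' y, Q (S := S) x y + ∑ j, c j * ∑' y, E (t j) x y := by
    rw [hH, (sQ.mul_left c0).tsum_add (summable_sum fun j _ => (sE j).mul_left (c j)), tsum_mul_left,
      Summable.tsum_finsetSum fun j _ => (sE j).mul_left (c j)]
    congr 1
    exact Finset.sum_congr rfl fun j _ => tsum_mul_left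
  have e3 : ∑' y, H y ≤ V * Lam x + (|c0| * C1 + ∑ j, |c j| * C j) := by
    rw [e2]
    have b1 : c0 * ∑' y, Q (S := S) x y ≤ c0 * Lam x + |c0| * C1 := by
      have : c0 * (∑' y, Q (S := S) x y - Lam x) ≤ |c0| * C1 := by
        calc c0 * (∑' y, Q (S := S) x y - Lam x) ≤ |c0 * (∑' y, Q (S := S) x y - Lam x)| := le_abs_self _
          _ = |c0| * |∑' y, Q (S := S) x y - Lam x| := abs_mul _ _
          _ ≤ _ := mul_le_mul_of_nonneg_left h2 (abs_nonneg _)
      linarith
    have b2 : ∑ j, c j * ∑' y, E (t j) x y ≤ (∑ j, c j * m j) * Lam x + ∑ j, |c j| * C j := by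
      rw [Finset.sum_mul, ← Finset.sum_add_distrib]
      refine Finset.sum_le_sum fun j _ => ?_
      have : c j * (∑' y, E (t j) x y - m j * Lam x) ≤ |c j| * C j := by
        calc c j * (∑' y, E (t j) x y - m j * Lam x) ≤ |c j * (∑' y, E (t j) x y - m j * Lam x)| :=
              le_abs_self _
          _ = |c j| * |∑' y, E (t j) x y - m j * Lam x| := abs_mul _ _
          _ ≤ _ := mul_le_mul_of_nonneg_left (h1 j) (abs_nonneg _)
      linarith
    rw [hV]
    linarith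
  have e4 : V * Lam x ≤ V * Z S x + |V| * C2 := by
    have : -(V * (Z S x - Lam x)) ≤ |V| * C2 := by
      calc -(V * (Z S x - Lam x)) ≤ |V * (Z S x - Lam x)| := neg_le_abs _
        _ = |V| * |Z S x - Lam x| := abs_mul _ _
        _ ≤ _ := mul_le_mul_of_nonneg_left h3 (abs_nonneg _)
    linarith
  linarith

/-- **Quadratic forms in the traces of cuspidal representations.** -/
theorem share_quad {I : Type*} [Fintype I] [DecidableEq I] {T : I → PL S → ℕ → ℂ} (h : Cuspidals T)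
    (c : I → ℝ) (δ : ℝ) {w : ℝ} (hw : 0 < w)
    {P : PL S → Prop} (hP : ∀ v, P v → w ≤ ‖(δ : ℂ) + ∑ i, (c i : ℂ) * T i v 1‖) {ε : ℝ} (hε : 0 < ε) :
    ∀ᶠ x : ℝ in 𝓝[>] 1, share P x ≤ (δ ^ 2 + ∑ i, c i ^ 2) / w ^ 2 + ε := by
  classical
  -- the index set
  let J := I ⊕ (I × I)
  let t : J → PL S → ℕ → ℂ := fun j => Sum.elim (fun i => T i)
    (fun p => fun v k => T p.1 v k * (starRingEnd ℂ) (T p.2 v k)) j
  let m : J → ℤ := fun j => Sum.elim (fun _ => 0) (fun p => if p.1 = p.2 then 1 else 0) j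
  let c' : J → ℝ := fun j => Sum.elim (fun i => 2 * δ * c i / w ^ 2) (fun p => c p.1 * c p.2 / w ^ 2) j
  have hp : ∀ j, Pole (t j) (m j) := by
    rintro (i | p)
    · exact h.std i
    · exact h.rs p.1 p.2
  have key : ∀ v k, δ ^ 2 / w ^ 2 + ∑ j, c' j * (t j v k).re = ‖(δ : ℂ) + ∑ i, (c i : ℂ) * T i v k‖ ^ 2 / w ^ 2 := by
    intro v k
    have e1 : ((‖(δ : ℂ) + ∑ i, (c i : ℂ) * T i v k‖ ^ 2 : ℝ) : ℂ) =
        ((δ : ℂ) + ∑ i, (c i : ℂ) * T i v k) * ((δ : ℂ) + ∑ i, (c i : ℂ) * (starRingEnd ℂ) (T i v k)) := by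
      rw [← Complex.normSq_eq_norm_sq, Complex.normSq_eq_conj_mul_self, mul_comm]
      congr 1
      rw [map_add, map_sum, Complex.conj_ofReal]
      congr 1
      refine Finset.sum_congr rfl fun i _ => ?_
      rw [map_mul, Complex.conj_ofReal]
    have e2 : ‖(δ : ℂ) + ∑ i, (c i : ℂ) * T i v k‖ ^ 2 =
        δ ^ 2 + 2 * δ * ∑ i, c i * (T i v k).re +
          ∑ i, ∑ j, c i * c j * (T i v k * (starRingEnd ℂ) (T j v k)).re := by
      have e3 : ((δ : ℂ) + ∑ i, (c i : ℂ) * T i v k) * ((δ : ℂ) + ∑ i, (c i : ℂ) * (starRingEnd ℂ) (T i v k)) =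
          (δ : ℂ) ^ 2 + (δ : ℂ) * ∑ i, (c i : ℂ) * (T i v k + (starRingEnd ℂ) (T i v k)) +
            ∑ i, ∑ j, ((c i * c j : ℝ) : ℂ) * (T i v k * (starRingEnd ℂ) (T j v k)) := by
        have e4 : ∑ i, ∑ j, ((c i * c j : ℝ) : ℂ) * (T i v k * (starRingEnd ℂ) (T j v k)) =
            (∑ i, (c i : ℂ) * T i v k) * ∑ i, (c i : ℂ) * (starRingEnd ℂ) (T i v k) := by
          rw [Finset.sum_mul_sum]
          refine Finset.sum_congr rfl fun i _ => Finset.sum_congr rfl fun j _ => ?_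
          push_cast
          ring
        have e5 : ∑ i, (c i : ℂ) * (T i v k + (starRingEnd ℂ) (T i v k)) =
            ∑ i, (c i : ℂ) * T i v k + ∑ i, (c i : ℂ) * (starRingEnd ℂ) (T i v k) := by
          rw [← Finset.sum_add_distrib]
          exact Finset.sum_congr rfl fun i _ => by ring
        rw [e4, e5]
        ring
      have e6 := congrArg Complex.re (e1.trans e3)
      rw [Complex.ofReal_re] at e6
      rw [e6]
      have e7 : ((δ : ℂ) * ∑ i, (c i : ℂ) * (T i v k + (starRingEnd ℂ) (T i v k))).re =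
          2 * δ * ∑ i, c i * (T i v k).re := by
        rw [Complex.re_ofReal_mul, Complex.re_sum, Finset.mul_sum, Finset.mul_sum]
        refine Finset.sum_congr rfl fun i _ => ?_
        rw [Complex.re_ofReal_mul, Complex.add_re, Complex.conj_re]
        ring
      have e8 : (∑ i, ∑ j, ((c i * c j : ℝ) : ℂ) * (T i v k * (starRingEnd ℂ) (T j v k))).re =
          ∑ i, ∑ j, c i * c j * (T i v k * (starRingEnd ℂ) (T j v k)).re := by
        rw [Complex.re_sum]
        refine Finset.sum_congr rfl fun i _ => ?_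
        rw [Complex.re_sum]
        refine Finset.sum_congr rfl fun j _ => ?_
        rw [Complex.re_ofReal_mul]
      rw [Complex.add_re, Complex.add_re, e7, e8]
      congr 2
      rw [← Complex.ofReal_pow, Complex.ofReal_re]
    have e9 : ∑ j, c' j * (t j v k).re = (2 * δ * ∑ i, c i * (T i v k).re +
          ∑ i, ∑ j, c i * c j * (T i v k * (starRingEnd ℂ) (T j v k)).re) / w ^ 2 := by
      rw [Fintype.sum_sum_type, add_div]
      congr 1
      · rw [Finset.mul_sum, Finset.sum_div]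
        refine Finset.sum_congr rfl fun i _ => ?_
        simp only [c', t, Sum.elim_inl]
        ring
      · rw [Fintype.sum_prod_type, Finset.sum_div]
        refine Finset.sum_congr rfl fun i _ => ?_
        rw [Finset.sum_div]
        refine Finset.sum_congr rfl fun j _ => ?_
        simp only [c', t, Sum.elim_inr]
        ring
    rw [e9, e2]
    ring
  have hV : δ ^ 2 / w ^ 2 + ∑ j, c' j * m j = (δ ^ 2 + ∑ i, c i ^ 2) / w ^ 2 := by
    rw [Fintype.sum_sum_type, add_div]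
    congr 1
    have a1 : ∑ i, c' (Sum.inl i) * (m (Sum.inl i) : ℝ) = 0 :=
      Finset.sum_eq_zero fun i _ => by simp [m]
    rw [a1, zero_add, Fintype.sum_prod_type, Finset.sum_div]
    refine Finset.sum_congr rfl fun i _ => ?_
    rw [Finset.sum_eq_single i]
    · simp only [c', m, Sum.elim_inr]
      norm_num
      ring
    · intro j _ hj
      simp only [m, Sum.elim_inr]
      rw [if_neg (Ne.symm hj)]
      norm_num
    · intro hi
      exact absurd (Finset.mem_univ i) hi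
  have := share_lp hp c' (δ ^ 2 / w ^ 2) (fun v k _ => by rw [key]; positivity) (P := P)
    (fun v hv => by
      rw [key, one_le_div (by positivity)]
      exact pow_le_pow_left₀ hw.le (hP v hv) 2) hε
  rw [hV] at this
  exact this

end Pool.Agent.N859.LP
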