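import Pool.Agent.N859.LP.Engine

/-! Families of cusp forms on `GL(2)`. -/

set_option autoImplicit false

namespace Pool.Agent.N859.LP

open NumberField IsDedekindDomain Filter Topology
open Pool.Agent.N859.G4

variable {K : Type*} [Field K] [NumberField K] {S : Finset (HeightOneSpectrum (𝓞 K))}

/-! ### Local part -/

lemma local_u {a : Fin 2 → ℂ} (h0 : ∀ j, a j ≠ 0) {τ : Equiv.Perm (Fin 2)}
    (hτ : ∀ j, a (τ j) = ((starRingEnd ℂ) (a j))⁻¹) :
    ∃ u : ℝ, a 0 / a 1 + a 1 / a 0 = u ∧ (¬ Tempered a → 2 < u) := by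
  have c0 : (starRingEnd ℂ) (a 0) ≠ 0 := by simpa using h0 0
  have c1 : (starRingEnd ℂ) (a 1) ≠ 0 := by simpa using h0 1
  have n0 : 0 < ‖a 0‖ := norm_pos_iff.2 (h0 0)
  by_cases hswap : τ 0 = 1
  · have h1 : a 1 = ((starRingEnd ℂ) (a 0))⁻¹ := by rw [← hτ 0, hswap]
    have e1 : a 0 / a 1 = ((‖a 0‖ ^ 2 : ℝ) : ℂ) := by
      rw [h1, div_inv_eq_mul, Complex.mul_conj, Complex.normSq_eq_norm_sq]
    have e2 : a 1 / a 0 = (((‖a 0‖ ^ 2)⁻¹ : ℝ) : ℂ) := by
      rw [Complex.ofReal_inv, ← e1, inv_div]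
    refine ⟨‖a 0‖ ^ 2 + (‖a 0‖ ^ 2)⁻¹, by rw [e1, e2]; push_cast; rfl, fun ht => ?_⟩
    refine two_lt_add_inv (by positivity) fun h => ht ?_
    have h2 : ‖a 0‖ = 1 := by nlinarith
    intro j
    fin_cases j
    · exact h2
    · change ‖a 1‖ = 1
      rw [h1, norm_inv, RCLike.norm_conj, h2, inv_one]
  · have h00 : τ 0 = 0 := by
      have : ∀ x : Fin 2, x ≠ 1 → x = 0 := by decide
      exact this _ hswap
    have h11 : τ 1 = 1 := by
      have : ∀ x : Fin 2, x ≠ 0 → x = 1 := by decide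
      refine this _ fun h => ?_
      have := τ.injective (h.trans h00.symm)
      exact absurd this (by decide)
    have e0 : a 0 = ((starRingEnd ℂ) (a 0))⁻¹ := by
      have := hτ 0
      rwa [h00] at this
    have e1 : a 1 = ((starRingEnd ℂ) (a 1))⁻¹ := by
      have := hτ 1
      rwa [h11] at this
    have m0 : a 0 * (starRingEnd ℂ) (a 0) = 1 := by
      nth_rw 1 [e0]; exact inv_mul_cancel₀ c0
    have m1 : a 1 * (starRingEnd ℂ) (a 1) = 1 := by
      nth_rw 1 [e1]; exact inv_mul_cancel₀ c1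
    have e2 : a 1 / a 0 = (starRingEnd ℂ) (a 0 / a 1) := by
      rw [map_div₀, div_eq_div_iff (h0 0) c1, m1, mul_comm, m0]
    refine ⟨2 * (a 0 / a 1).re, ?_, fun ht => absurd ?_ ht⟩
    · rw [e2, Complex.add_conj]
    · intro j
      have key : ∀ z : ℂ, z * (starRingEnd ℂ) z = 1 → ‖z‖ = 1 := by
        intro z hz
        rw [Complex.mul_conj, Complex.normSq_eq_norm_sq] at hz
        have h3 : ‖z‖ ^ 2 = 1 := by exact_mod_cast hz
        nlinarith [norm_nonneg z]
      fin_cases j
      · exact key _ m0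
      · exact key _ m1

lemma A2_one {a : Fin 2 → ℂ} {u : ℝ} (h : a 0 / a 1 + a 1 / a 0 = u) : A2 a 1 = ((1 + u : ℝ) : ℂ) := by
  unfold A2
  push_cast
  linear_combination h

lemma A4_one {a : Fin 2 → ℂ} (h0 : ∀ j, a j ≠ 0) {u : ℝ} (h : a 0 / a 1 + a 1 / a 0 = u) :
    A4 a 1 = ((u ^ 2 + u - 1 : ℝ) : ℂ) := by
  unfold A4
  have e : (a 0 / a 1) * (a 1 / a 0) = 1 := by
    have := h0 0
    have := h0 1
    field_simp
  push_cast
  linear_combination (h + (u + (a 0 / a 1 + a 1 / a 0)) * h) - 2 * e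

/-! ### Global part -/

variable {ι : Type*} [DecidableEq ι] {α : ι → PL S → Fin 2 → ℂ}

/-- restriction to a finite subfamily -/
lemma FamilyGL2.sub (h : FamilyGL2 α) (s : Finset ι) :
    Cuspidals (I := s ⊕ s) (fun j v k => Sum.elim (fun i : s => A2 (α i v) k) (fun i : s => A4 (α i v) k) j) := by
  constructor
  · rintro (i | i)
    · exact h.lifts.std (Sum.inl i)
    · exact h.lifts.std (Sum.inr i)
  · have e : ∀ i j : s ⊕ s, (if i = j then (1 : ℤ) else 0) =
        if Sum.map Subtype.val Subtype.val i = (Sum.map Subtype.val Subtype.val j : ι ⊕ ι) then 1 else 0 := by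
      intro i j
      have : i = j ↔ (Sum.map Subtype.val Subtype.val i : ι ⊕ ι) = Sum.map Subtype.val Subtype.val j :=
        (Function.Injective.sumMap Subtype.val_injective Subtype.val_injective).eq_iff.symm
      simp only [this]
    intro i j
    rw [e]
    rcases i with i | i <;> rcases j with j | j
    · exact h.lifts.rs (Sum.inl i) (Sum.inl j)
    · exact h.lifts.rs (Sum.inl i) (Sum.inr j)
    · exact h.lifts.rs (Sum.inr i) (Sum.inl j)
    · exact h.lifts.rs (Sum.inr i) (Sum.inr j)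

lemma share_form (h : FamilyGL2 α) (s : Finset ι) (p q δ : ℝ) {w : ℝ} (hw : 0 < w) {P : PL S → Prop}
    (hP : ∀ v, P v → ∀ u : ι → ℝ, (∀ i, α i v 0 / α i v 1 + α i v 1 / α i v 0 = u i) →
      (∀ i, ¬ Tempered (α i v) → 2 < u i) →
      w ≤ δ + ∑ i ∈ s, (p * (1 + u i) + q * (u i ^ 2 + u i - 1))) {ε : ℝ} (hε : 0 < ε) :
    ∀ᶠ x : ℝ in 𝓝[>] 1, share P x ≤ (δ ^ 2 + s.card * (p ^ 2 + q ^ 2)) / w ^ 2 + ε := by
  have := share_quad (h.sub s) (Sum.elim (fun _ => p) (fun _ => q)) δ hw (P := P)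
    (fun v hv => by
      have hu : ∀ i, ∃ u : ℝ, α i v 0 / α i v 1 + α i v 1 / α i v 0 = u ∧ (¬ Tempered (α i v) → 2 < u) :=
        fun i => by
          obtain ⟨τ, hτ⟩ := h.unitary i v
          exact local_u (h.ne_zero i v) hτ
      choose u hu1 hu2 using hu
      have h1 := hP v hv u hu1 hu2
      have e : (δ : ℂ) + ∑ j : s ⊕ s, ((Sum.elim (fun _ => p) (fun _ => q) j : ℝ) : ℂ) *
          Sum.elim (fun i : s => A2 (α i v) 1) (fun i : s => A4 (α i v) 1) j =
          ((δ + ∑ i ∈ s, (p * (1 + u i) + q * (u i ^ 2 + u i - 1)) : ℝ) : ℂ) := by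
        rw [Fintype.sum_sum_type]
        simp only [Sum.elim_inl, Sum.elim_inr]
        rw [← Finset.sum_add_distrib, ← Finset.sum_coe_sort s]
        push_cast
        congr 1
        refine Finset.sum_congr rfl fun i _ => ?_
        rw [A2_one (hu1 i), A4_one (h.ne_zero i v) (hu1 i)]
        push_cast
        ring
      rw [e, Complex.norm_real, Real.norm_eq_abs]
      exact h1.trans (le_abs_self _)) hε
  filter_upwards [this] with x hx
  refine hx.trans (le_of_eq ?_)
  rw [Fintype.sum_sum_type]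
  simp only [Sum.elim_inl, Sum.elim_inr, Finset.sum_const, Finset.card_univ, Fintype.card_coe,
    nsmul_eq_mul]
  ring

theorem all_nontempered (h : FamilyGL2 α) (s : Finset ι) :
    upperDensity (fun v => ∀ i ∈ s, ¬ Tempered (α i v)) ≤ 1 / (34 * s.card + 1) := by
  refine upper_le fun ε hε => ?_
  have hw : (0 : ℝ) < 34 * s.card + 1 := by positivity
  have := share_form h s 3 5 1 hw (P := fun v => ∀ i ∈ s, ¬ Tempered (α i v))
    (fun v hv u _ hu2 => by
      have : ∑ i ∈ s, (34 : ℝ) ≤ ∑ i ∈ s, (3 * (1 + u i) + 5 * (u i ^ 2 + u i - 1)) := by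
        refine Finset.sum_le_sum fun i hi => ?_
        have := hu2 i (hv i hi)
        nlinarith
      rw [Finset.sum_const, nsmul_eq_mul] at this
      linarith) hε
  filter_upwards [this] with x hx
  refine hx.trans (le_of_eq ?_)
  field_simp
  ring

open scoped Classical in
theorem many_nontempered (h : FamilyGL2 α) {s : Finset ι} (hs : s.Nonempty) {θ : ℝ} (hθ : 1 / 10 < θ) :
    upperDensity (fun v => θ * s.card ≤ ({i ∈ s | ¬ Tempered (α i v)}.card : ℝ)) ≤
      153 / (153 + 50 * s.card * (10 * θ - 1) ^ 2) := by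
  have hn : (0 : ℝ) < s.card := by exact_mod_cast Finset.card_pos.2 hs
  set n : ℝ := (s.card : ℝ) with hndef
  have hθ' : 0 < 10 * θ - 1 := by linarith
  set W : ℝ := 10 / 3 * n * (10 * θ - 1) with hW
  have hW0 : 0 < W := by positivity
  have hw : 0 < W + 34 * n / W := by positivity
  refine upper_le fun ε hε => ?_
  have := share_form h s 5 3 (34 * n / W) hw
    (P := fun v => θ * s.card ≤ ({i ∈ s | ¬ Tempered (α i v)}.card : ℝ))
    (fun v hv u _ hu2 => by
      have key : W ≤ ∑ i ∈ s, (5 * (1 + u i) + 3 * (u i ^ 2 + u i - 1)) := by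
        have h1 : ∑ i ∈ s, (-(10 / 3) + 100 / 3 * (if ¬ Tempered (α i v) then (1 : ℝ) else 0)) ≤
            ∑ i ∈ s, (5 * (1 + u i) + 3 * (u i ^ 2 + u i - 1)) := by
          refine Finset.sum_le_sum fun i _ => ?_
          by_cases ht : ¬ Tempered (α i v)
          · rw [if_pos ht]
            have := hu2 i ht
            nlinarith
          · rw [if_neg ht]
            nlinarith [sq_nonneg (3 * u i + 4)]
        rw [Finset.sum_add_distrib, Finset.sum_const, ← Finset.mul_sum, Finset.sum_boole, nsmul_eq_mul] at h1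
        refine le_trans ?_ h1
        have h2 : θ * n ≤ ({i ∈ s | ¬ Tempered (α i v)}.card : ℝ) := hv
        rw [hW, ← hndef]
        nlinarith
      linarith) hε
  filter_upwards [this] with x hx
  refine hx.trans (le_of_eq ?_)
  rw [hW, ← hndef]
  congr 1
  have h9 : (10 * θ - 1) ≠ 0 := hθ'.ne'
  field_simp
  ring

lemma upper_nonneg {P : PL S → Prop} : 0 ≤ upperDensity P := by
  unfold upperDensity
  refine le_limsup_of_frequently_le ?_ ?_
  · exact (Eventually.of_forall fun x => share_nonneg (P := P) x).frequently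
  · exact ⟨1, share_le_one⟩

theorem infinite_family [Infinite ι] (h : FamilyGL2 α) :
    upperDensity (fun v => ∀ i, ¬ Tempered (α i v)) = 0 := by
  refine le_antisymm ?_ upper_nonneg
  refine le_of_forall_pos_le_add fun η hη => ?_
  rw [zero_add]
  obtain ⟨N, hN⟩ := exists_nat_gt (1 / η)
  obtain ⟨s, hs⟩ := Infinite.exists_subset_card_eq ι N
  have h1 : (0 : ℝ) < 34 * s.card + 1 := by positivity
  have h2 : 1 / (34 * (s.card : ℝ) + 1) < η := by
    rw [hs, div_lt_iff₀ (by positivity)]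
    rw [div_lt_iff₀ hη] at hN
    have : (0 : ℝ) ≤ N := Nat.cast_nonneg N
    nlinarith
  refine upper_le_of_imp h s |>.trans h2.le
where
  upper_le_of_imp (h : FamilyGL2 α) (s : Finset ι) :
      upperDensity (fun v => ∀ i, ¬ Tempered (α i v)) ≤ 1 / (34 * (s.card : ℝ) + 1) := by
    refine upper_le fun ε hε => ?_
    have hw : (0 : ℝ) < 34 * s.card + 1 := by positivity
    have := share_form h s 3 5 1 hw (P := fun v => ∀ i, ¬ Tempered (α i v))
      (fun v hv u _ hu2 => by
        have : ∑ i ∈ s, (34 : ℝ) ≤ ∑ i ∈ s, (3 * (1 + u i) + 5 * (u i ^ 2 + u i - 1)) := by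
          refine Finset.sum_le_sum fun i _ => ?_
          have := hu2 i (hv i)
          nlinarith
        rw [Finset.sum_const, nsmul_eq_mul] at this
        linarith) hε
    filter_upwards [this] with x hx
    refine hx.trans (le_of_eq ?_)
    field_simp
    ring

end Pool.Agent.N859.LP
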